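import Pool.Agent.H54Waring.P_Final

set_option autoImplicit false

namespace Pool.Agent.Results.MP_ee77ae_nt.FourKPositivePowers

open Finset

/-- the set of sums of exactly s k-th powers of positive integers -/
def SumsOfPositivePowers (k s : ℕ) : Set ℕ := {n | ∃ x : Fin s → ℕ, (∀ i, 0 < x i) ∧ n = ∑ i, x i ^ k}

/-- positive lower asymptotic density -/
def PositiveLowerDensity (A : Set ℕ) : Prop := ∃ δ : ℝ, 0 < δ ∧ ∃ N0 : ℕ, ∀ N : ℕ, N0 ≤ N →
  δ * N ≤ (Nat.card {n : ℕ // n < N ∧ n ∈ A} : ℝ)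

/-- the complement of A has o(N) elements below N -/
def HasDensityOne (A : Set ℕ) : Prop := ∀ ε : ℝ, 0 < ε → ∃ N1 : ℕ, ∀ N : ℕ, N1 ≤ N →
  (Nat.card {n : ℕ // n < N ∧ n ∉ A} : ℝ) ≤ ε * N

/-- every sufficiently large integer is in the set -/
def ContainsAllLarge (A : Set ℕ) : Prop := ∃ N1 : ℕ, ∀ n : ℕ, N1 ≤ n → n ∈ A

/-- Waring's function G(k) as in the problem: least s such that every sufficiently large integer is a
sum of exactly s k-th powers of positive integers -/
noncomputable def G (k : ℕ) : ℕ := sInf {s | ContainsAllLarge (SumsOfPositivePowers k s)}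

theorem result :
    (∀ (k : ℕ) (A : Set ℕ), 2 ≤ k → PositiveLowerDensity A →
      HasDensityOne {n | ∃ a ∈ A, ∃ b ∈ SumsOfPositivePowers k (4 * k), n = a + b} ∧
      ContainsAllLarge {n | ∃ a ∈ A, ∃ a' ∈ A, ∃ b ∈ SumsOfPositivePowers k (4 * k), n = a + a' + b}) ∧
    (∀ k s : ℕ, 2 ≤ k → PositiveLowerDensity (SumsOfPositivePowers k s) →
      HasDensityOne (SumsOfPositivePowers k (s + 4 * k)) ∧
      ContainsAllLarge (SumsOfPositivePowers k (2 * s + 4 * k)) ∧
      G k ≤ 2 * s + 4 * k) := by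
  refine ⟨fun k A hk hA => H54Waring.final_general_P k hk A hA, fun k s hk hA => ?_⟩
  have h := H54Waring.final_waring_P k s hk hA
  exact ⟨h.1, h.2, Nat.sInf_le h.2⟩

end Pool.Agent.Results.MP_ee77ae_nt.FourKPositivePowers
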